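import Mathlib
import Pool.Agent.Helper86.Tri.A9
import Pool.Agent.Helper86.Tri.B4
import Pool.Agent.Helper86.Tri.C2
import Pool.Agent.Helper86.Tri.D3
import Pool.Agent.Helper86.Tri.Final

/-!
# Norm-attaining trilinear forms on `C(K)` need not be dense

We answer Q1 of MP_ce1e3b_an in the negative (real scalars): for a suitable compact metrizable
space `K` (the disjoint union of `[0,1]` and a countable product of finite discrete spaces) there
is a bounded 3-linear form on `C(K)` whose distance to every norm-attaining 3-linear form is at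
least `1/2048`.
-/

set_option autoImplicit false

open Pool.Agent.Helper86.Tri

namespace Pool.Agent.Results.MP_ce1e3b_an.NotDense

/-- A bounded 3-linear form on `C(K, ℝ)` is norm-attaining if `|B(f₁,f₂,f₃)| = ‖B‖` for some
`f₁, f₂, f₃` in the closed unit ball. -/
def NormAttaining {K : Type} [TopologicalSpace K] [CompactSpace K]
    (B : ContinuousMultilinearMap ℝ (fun _ : Fin 3 => C(K, ℝ)) ℝ) : Prop :=
  ∃ f : Fin 3 → C(K, ℝ), (∀ i, ‖f i‖ ≤ 1) ∧ |B f| = ‖B‖

theorem sum_le_one (P : Finset ℕ) : ∑ l ∈ P, ((1 : ℝ) / 2) ^ (l + 1) ≤ 1 := by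
  have hs : HasSum (fun r : ℕ => ((1 : ℝ) / 2) ^ (r + 1)) 1 := by
    have h := hasSum_geometric_two' 1
    simpa [pow_succ, div_eq_mul_inv, mul_comm] using h
  exact sum_le_hasSum _ (fun _ _ => by positivity) hs

theorem sum_tail (η : ℝ) (hη : 0 < η) :
    ∃ R : ℕ, ∀ P : Finset ℕ, (∀ l ∈ P, R ≤ l) → ∑ l ∈ P, ((1 : ℝ) / 2) ^ (l + 1) ≤ η := by
  obtain ⟨R, hR⟩ := exists_pow_lt_of_lt_one hη (by norm_num : (1 / 2 : ℝ) < 1)
  refine ⟨R, fun P hP => ?_⟩
  have h1 : ∑ l ∈ P, ((1 : ℝ) / 2) ^ (l + 1) ≤ (1 / 2) ^ R := by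
    have h2 : ∑ l ∈ P, ((1 : ℝ) / 2) ^ (l + 1) =
        (1 / 2) ^ R * ∑ l ∈ P.image (fun l => l - R), ((1 : ℝ) / 2) ^ (l + 1) := by
      rw [Finset.sum_image, Finset.mul_sum]
      · refine Finset.sum_congr rfl fun l hl => ?_
        rw [← pow_add]; congr 1
        have := hP l hl; omega
      · intro x hx y hy hxy
        have := hP x hx
        have := hP y hy
        simp only at hxy
        omega
    rw [h2]
    have h3 := sum_le_one (P.image (fun l => l - R))
    have h4 : (0 : ℝ) ≤ (1 / 2) ^ R := by positivity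
    nlinarith
  exact h1.trans hR.le

/-- **Negative answer to Q1.** There are a compact Hausdorff (even metrizable) space `K` and a
bounded 3-linear form `A` on `C(K)` at distance at least `1/2048` from every norm-attaining
3-linear form on `C(K)`; in particular the norm-attaining forms are not dense. -/
theorem result :
    ∃ (K : Type) (_ : TopologicalSpace K) (_ : CompactSpace K) (_ : T2Space K)
      (_ : TopologicalSpace.MetrizableSpace K),
      (∃ A : ContinuousMultilinearMap ℝ (fun _ : Fin 3 => C(K, ℝ)) ℝ,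
        ∀ B : ContinuousMultilinearMap ℝ (fun _ : Fin 3 => C(K, ℝ)) ℝ,
          NormAttaining B → 1 / 2048 ≤ ‖A - B‖) ∧
      ¬ Dense {B : ContinuousMultilinearMap ℝ (fun _ : Fin 3 => C(K, ℝ)) ℝ |
          NormAttaining B} := by
  classical
  let δ : ℕ → ℝ := fun r => (1 / 2) ^ (r + 1)
  let a : ℕ → ℝ := fun r => (1 / 2) ^ r
  have hδpos : ∀ r, 0 < δ r := fun r => by positivity
  have hapos : ∀ r, 0 < a r := fun r => by positivity
  let F : ∀ r, Fake (δ r) (a r) := fun r => (exists_fake (hδpos r) (hapos r)).some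
  let Cf : Coeffs fun r => (F r).n := (exists_coeffs (fun r => (F r).n) (fun r => (F r).hn)).some
  let S : Switch fun r => (F r).m := (exists_switch (fun r => (F r).m)).some
  have hδ1 : ∀ P : Finset ℕ, ∑ r ∈ P, δ r ≤ 1 := sum_le_one
  have hδt : ∀ η > 0, ∃ R : ℕ, ∀ P : Finset ℕ, (∀ l ∈ P, R ≤ l) → ∑ l ∈ P, δ l ≤ η := sum_tail
  have hat : ∀ η > 0, ∃ R : ℕ, ∀ r, R ≤ r → a r ≤ η := by
    intro η hη
    obtain ⟨R, hR⟩ := exists_pow_lt_of_lt_one hη (by norm_num : (1 / 2 : ℝ) < 1)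
    refine ⟨R, fun r hr => ?_⟩
    exact (pow_le_pow_of_le_one (by norm_num) (by norm_num) hr).trans hR.le
  obtain ⟨A, hA⟩ := exists_cmm (a0 F Cf S) (a0_tri F Cf S hδ1) 2 (a0_bound F Cf S hδ1)
  have hmain : ∀ B : ContinuousMultilinearMap ℝ (fun _ : Fin 3 => C(KK fun r => (F r).n, ℝ)) ℝ,
      NormAttaining B → 1 / 2048 ≤ ‖A - B‖ := by
    rintro B ⟨f, hf, hatt⟩
    by_contra hlt
    push Not at hlt
    obtain ⟨hBt, hBn⟩ := cmm_isTri B
    have hclose : ∀ g1 g2 g3, |a0 F Cf S g1 g2 g3 - B ![g1, g2, g3]| ≤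
        (1 / 2048) * ‖g1‖ * ‖g2‖ * ‖g3‖ := by
      intro g1 g2 g3
      have h1 := (cmm_isTri (A - B)).2 g1 g2 g3
      have h2 : (A - B) ![g1, g2, g3] = a0 F Cf S g1 g2 g3 - B ![g1, g2, g3] := by
        rw [sub_apply, hA]; rfl
      rw [h2] at h1
      refine h1.trans ?_
      gcongr
    have hfe : f = ![f 0, f 1, f 2] := by
      ext i; fin_cases i <;> rfl
    rcases abs_choice (B f) with h | h
    · rw [h] at hatt
      exact core_false F Cf S (fun r => (hδpos r).le) hδ1 hδt hapos hat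
        (fun g1 g2 g3 => B ![g1, g2, g3]) hBt ‖B‖ hBn hclose (f 0) (f 1) (f 2) (hf 0) (hf 1) (hf 2)
        (by rw [← hatt]; exact congrArg B hfe.symm)
    · rw [h] at hatt
      refine core_false F Cf S (fun r => (hδpos r).le) hδ1 hδt hapos hat
        (fun g1 g2 g3 => B ![g1, g2, g3]) hBt ‖B‖ hBn hclose ((-1 : ℝ) • f 0) (f 1) (f 2) ?_ (hf 1)
        (hf 2) ?_
      · rw [norm_smul]; simpa using hf 0
      · have h3 : B ![(-1 : ℝ) • f 0, f 1, f 2] = -1 * B ![f 0, f 1, f 2] :=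
          hBt.smul₁ (-1) (f 0) (f 1) (f 2)
        have h4 : B ![f 0, f 1, f 2] = B f := congrArg B hfe.symm
        show B ![(-1 : ℝ) • f 0, f 1, f 2] = ‖B‖
        rw [h3, h4, ← hatt]; ring
  refine ⟨KK fun r => (F r).n, inferInstance, inferInstance, inferInstance, inferInstance,
    ⟨A, hmain⟩, ?_⟩
  intro hd
  obtain ⟨B, hB, hBA⟩ := Metric.dense_iff.mp hd A (1 / 2048) (by norm_num)
  have h1 := hmain B hBA
  rw [Metric.mem_ball, dist_comm, dist_eq_norm] at hB
  linarith

end Pool.Agent.Results.MP_ce1e3b_an.NotDense
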